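import Mathlib
import Pool.Agent.Helper872.Sch.Disj
set_option autoImplicit false
set_option linter.unusedSectionVars false
open scoped ENNReal InnerProductSpace Topology
open Module ContinuousLinearMap Filter
open Pool.Agent.Helper872.Sch

namespace Pool.Agent.Results.MP_fd02da_an.SchattenIsometries

universe u w
variable {H : Type u} [NormedAddCommGroup H] [InnerProductSpace ℂ H] [CompleteSpace H]

/-- The Schatten class as a space of operators: the compact operators `a` on `H` for which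
`trace (a† a)^(p/2)` is finite. -/
def schattenSubmodule (p : ℝ) [hp : Fact (1 ≤ p)] (H : Type u) [NormedAddCommGroup H]
    [InnerProductSpace ℂ H] [CompleteSpace H] : Submodule ℂ (H →L[ℂ] H) where
  carrier := {a | IsCompactOperator a ∧ trPow p a < ∞}
  add_mem' := by
    rintro a c ⟨ha, ha'⟩ ⟨hc, hc'⟩
    refine ⟨ha.add hc, ?_⟩
    have hp0 : 0 < p := lt_of_lt_of_le one_pos hp.out
    have h := trPow_add_le ha hc hp.out
    have h1 : (trPow p (a + c)) ^ (1 / p) < ∞ :=
      lt_of_le_of_lt h (ENNReal.add_lt_top.2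
        ⟨ENNReal.rpow_lt_top_of_nonneg (by positivity) ha'.ne,
          ENNReal.rpow_lt_top_of_nonneg (by positivity) hc'.ne⟩)
    by_contra hcon
    rw [not_lt, top_le_iff] at hcon
    rw [hcon, ENNReal.top_rpow_of_pos (by positivity)] at h1
    exact lt_irrefl _ h1
  zero_mem' := by
    refine ⟨isCompactOperator_zero, ?_⟩
    rw [trPow_zero (lt_of_lt_of_le one_pos hp.out)]
    exact ENNReal.zero_lt_top
  smul_mem' := by
    rintro c a ⟨ha, ha'⟩
    have hp0 : 0 < p := lt_of_lt_of_le one_pos hp.out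
    refine ⟨ha.smul c, ?_⟩
    rw [trPow_smul ha hp0]
    exact ENNReal.mul_lt_top (ENNReal.rpow_lt_top_of_nonneg hp0.le enorm_ne_top) ha'

/-- The Schatten class `𝔖_p(H)`. -/
def SchattenClass (p : ℝ) [Fact (1 ≤ p)] (H : Type u) [NormedAddCommGroup H]
    [InnerProductSpace ℂ H] [CompleteSpace H] : Type u := schattenSubmodule p H

variable {p : ℝ} [hp : Fact (1 ≤ p)]

noncomputable instance : AddCommGroup (SchattenClass p H) :=
  inferInstanceAs (AddCommGroup (schattenSubmodule p H))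

noncomputable instance : Module ℂ (SchattenClass p H) :=
  inferInstanceAs (Module ℂ (schattenSubmodule p H))

/-- The operator underlying an element of the Schatten class. -/
def toOp : SchattenClass p H →ₗ[ℂ] (H →L[ℂ] H) := (schattenSubmodule p H).subtype

theorem toOp_compact (a : SchattenClass p H) : IsCompactOperator (toOp a) := a.2.1

theorem toOp_fin (a : SchattenClass p H) : trPow p (toOp a) < ∞ := a.2.2

theorem toOp_injective : Function.Injective (toOp : SchattenClass p H → (H →L[ℂ] H)) :=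
  Subtype.val_injective

/-- The Schatten norm `(trace (a† a)^(p/2))^(1/p)`. -/
noncomputable instance : Norm (SchattenClass p H) :=
  ⟨fun a => ((trPow p (toOp a)) ^ (1 / p)).toReal⟩

theorem norm_def (a : SchattenClass p H) : ‖a‖ = ((trPow p (toOp a)) ^ (1 / p)).toReal := rfl

theorem p_pos : 0 < p := lt_of_lt_of_le one_pos hp.out

theorem root_fin (a : SchattenClass p H) : (trPow p (toOp a)) ^ (1 / p) ≠ ∞ := by
  have hp0 : 0 < p := p_pos
  exact (ENNReal.rpow_lt_top_of_nonneg (by positivity) (toOp_fin a).ne).ne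

theorem norm_rpow (a : SchattenClass p H) : ENNReal.ofReal (‖a‖ ^ p) = trPow p (toOp a) := by
  have hp0 : 0 < p := p_pos
  rw [← ENNReal.ofReal_rpow_of_nonneg (by rw [norm_def]; exact ENNReal.toReal_nonneg) hp0.le,
    norm_def, ENNReal.ofReal_toReal (root_fin a), ← ENNReal.rpow_mul, one_div,
    inv_mul_cancel₀ hp0.ne', ENNReal.rpow_one]

theorem core : NormedSpace.Core ℂ (SchattenClass p H) where
  norm_nonneg _ := ENNReal.toReal_nonneg
  norm_smul c a := by
    have hp0 : 0 < p := p_pos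
    rw [norm_def, norm_def, map_smul, trPow_smul (toOp_compact a) hp0,
      ENNReal.mul_rpow_of_nonneg _ _ (by positivity), ← ENNReal.rpow_mul, mul_one_div,
      div_self hp0.ne', ENNReal.rpow_one, ENNReal.toReal_mul, toReal_enorm]
  norm_triangle a c := by
    rw [norm_def, norm_def, norm_def, ← ENNReal.toReal_add (root_fin a) (root_fin c), map_add]
    exact ENNReal.toReal_mono (ENNReal.add_ne_top.2 ⟨root_fin a, root_fin c⟩)
      (trPow_add_le (toOp_compact a) (toOp_compact c) hp.out)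
  norm_eq_zero_iff a := by
    have hp0 : 0 < p := p_pos
    constructor
    · intro h
      rw [norm_def, ENNReal.toReal_eq_zero_iff] at h
      rcases h with h | h
      · rw [ENNReal.rpow_eq_zero_iff_of_pos (by positivity)] at h
        apply toOp_injective
        rw [map_zero]
        exact trPow_eq_zero (toOp_compact a) hp0 h
      · exact absurd h (root_fin a)
    · rintro rfl
      rw [norm_def, map_zero, trPow_zero hp0, ENNReal.zero_rpow_of_pos (by positivity)]
      rfl

noncomputable instance : NormedAddCommGroup (SchattenClass p H) := NormedAddCommGroup.ofCore core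

noncomputable instance : NormedSpace ℂ (SchattenClass p H) := NormedSpace.ofCore core

/-! ### Diagonal operators -/

theorem diag_sing {ι : Type*} (b : HilbertBasis ι ℂ H) {D : H →L[ℂ] H} {d : ι → ℂ}
    (hD : ∀ j, D (b j) = d j • b j) : SingBasis b D := by
  intro j
  have h1 : (adjoint D) (b j) = (starRingEnd ℂ (d j)) • b j := by
    apply ext_basis b
    intro k
    rw [adjoint_inner_right, hD k, inner_smul_left, inner_smul_right]
    by_cases hkj : k = j
    · rw [hkj]
    · rw [b.orthonormal.2 hkj, mul_zero, mul_zero]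
  rw [hD j, map_smul, h1, smul_smul, norm_smul, b.orthonormal.1 j, mul_one, Complex.mul_conj']
  push_cast
  rfl

/-- the rank one projection onto the `i`-th basis vector -/
noncomputable def proj {ι : Type*} (b : HilbertBasis ι ℂ H) (i : ι) : H →L[ℂ] H :=
  (innerSL ℂ (b i)).smulRight (b i)

theorem proj_apply {ι : Type*} (b : HilbertBasis ι ℂ H) (i : ι) (x : H) :
    proj b i x = ⟪b i, x⟫_ℂ • b i := rfl

theorem proj_compact {ι : Type*} (b : HilbertBasis ι ℂ H) (i : ι) :
    IsCompactOperator (proj b i) := by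
  have h1 : IsCompactOperator (innerSL ℂ (b i)) :=
    isCompactOperator_of_locallyCompactSpace_dom (innerSL ℂ (b i))
  exact h1.clm_comp ((ContinuousLinearMap.id ℂ ℂ).smulRight (b i) : ℂ →L[ℂ] H)

theorem proj_basis {ι : Type*} [DecidableEq ι] (b : HilbertBasis ι ℂ H) (i j : ι) :
    proj b i (b j) = (if j = i then (1 : ℂ) else 0) • b j := by
  rw [proj_apply]
  by_cases h : j = i
  · subst h
    rw [if_pos rfl, inner_self_eq_norm_sq_to_K, b.orthonormal.1]
    simp
  · rw [if_neg h, b.orthonormal.2 (Ne.symm h), zero_smul, zero_smul]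

theorem trPow_comb {ι : Type*} (b : HilbertBasis ι ℂ H) {i j : ι} (hij : i ≠ j)
    {p : ℝ} (hp0 : 0 < p) (α β : ℂ) :
    trPow p (α • proj b i + β • proj b j) = ‖α‖ₑ ^ p + ‖β‖ₑ ^ p := by
  classical
  let d : ι → ℂ := fun k => α * (if k = i then 1 else 0) + β * (if k = j then 1 else 0)
  have hD : ∀ k, (α • proj b i + β • proj b j) (b k) = d k • b k := by
    intro k
    rw [add_apply, smul_apply, smul_apply, proj_basis, proj_basis, smul_smul, smul_smul, ← add_smul]
  have hc : IsCompactOperator (α • proj b i + β • proj b j : H →L[ℂ] H) :=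
    ((proj_compact b i).smul α).add ((proj_compact b j).smul β)
  rw [trPow_eq (diag_sing b hD) (compact_star_mul hc) hp0, tsum_eq_sum (s := {i, j})]
  · rw [Finset.sum_pair hij, hD, hD, enorm_smul, enorm_smul, enorm_eq_one b.orthonormal,
      enorm_eq_one b.orthonormal, mul_one, mul_one]
    simp [d, hij, hij.symm]
  · intro k hk
    simp only [Finset.mem_insert, Finset.mem_singleton, not_or] at hk
    rw [hD]
    simp [d, hk.1, hk.2, hp0]

/-- the rank one projections as elements of the Schatten class -/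
noncomputable def projS (p : ℝ) [hp : Fact (1 ≤ p)] {ι : Type*} [Nontrivial ι]
    (b : HilbertBasis ι ℂ H) (i : ι) : SchattenClass p H :=
  ⟨proj b i, proj_compact b i, by
    obtain ⟨j, hj⟩ := exists_ne i
    have h := trPow_comb b hj.symm (p := p) p_pos 1 0
    rw [one_smul, zero_smul, add_zero, enorm_one, ENNReal.one_rpow, enorm_zero,
      ENNReal.zero_rpow_of_pos p_pos, add_zero] at h
    rw [h]
    exact ENNReal.one_lt_top⟩

theorem toOp_projS {ι : Type*} [Nontrivial ι] (b : HilbertBasis ι ℂ H) (i : ι) :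
    toOp (projS p b i) = proj b i := rfl

theorem norm_projS {ι : Type*} [Nontrivial ι] (b : HilbertBasis ι ℂ H) (i : ι) :
    ‖projS p b i‖ = 1 := by
  obtain ⟨j, hj⟩ := exists_ne i
  have h := trPow_comb b hj.symm (p := p) p_pos 1 0
  rw [one_smul, zero_smul, add_zero, enorm_one, ENNReal.one_rpow, enorm_zero,
    ENNReal.zero_rpow_of_pos p_pos, add_zero] at h
  rw [norm_def, toOp_projS, h, ENNReal.one_rpow]
  rfl

/-- the matrix coefficient at the `i`-th basis vector -/
noncomputable def coefL {ι : Type*} (b : HilbertBasis ι ℂ H) (i : ι) :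
    SchattenClass p H →ₗ[ℂ] ℂ where
  toFun a := ⟪b i, toOp a (b i)⟫_ℂ
  map_add' a c := by rw [map_add, add_apply, inner_add_right]
  map_smul' c a := by rw [map_smul, smul_apply, inner_smul_right]; rfl

theorem coef_sum_le {ι : Type*} (b : HilbertBasis ι ℂ H) {i j : ι} (hij : i ≠ j)
    (a : SchattenClass p H) :
    ‖coefL b i a‖ₑ ^ p + ‖coefL b j a‖ₑ ^ p ≤ trPow p (toOp a) := by
  classical
  have h1 : ∑' k, ‖⟪b k, toOp a (b k)⟫_ℂ‖ₑ ^ p ≤ trPow p (toOp a) :=
    biorth_le b.orthonormal b.orthonormal (compact_star_mul (toOp_compact a)) hp.out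
  refine le_trans ?_ h1
  have h2 := ENNReal.sum_le_tsum (f := fun k => ‖⟪b k, toOp a (b k)⟫_ℂ‖ₑ ^ p) {i, j}
  rwa [Finset.sum_pair hij] at h2

theorem coef_le {ι : Type*} [Nontrivial ι] (b : HilbertBasis ι ℂ H) (i : ι)
    (a : SchattenClass p H) : ‖coefL b i a‖ ≤ 1 * ‖a‖ := by
  obtain ⟨j, hj⟩ := exists_ne i
  have hp0 : 0 < p := p_pos
  have h := le_trans le_self_add (coef_sum_le b hj.symm a)
  rw [← norm_rpow, ← ofReal_norm, ENNReal.ofReal_rpow_of_nonneg (norm_nonneg _) hp0.le,
    ENNReal.ofReal_le_ofReal_iff (by positivity)] at h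
  rw [one_mul]
  exact (Real.rpow_le_rpow_iff (norm_nonneg _) (norm_nonneg _) hp0).1 h

/-- the matrix coefficient as a continuous functional -/
noncomputable def coef {ι : Type*} [Nontrivial ι] (b : HilbertBasis ι ℂ H) (i : ι) :
    SchattenClass p H →L[ℂ] ℂ :=
  (coefL b i).mkContinuous 1 (coef_le b i)

theorem coef_apply {ι : Type*} [Nontrivial ι] (b : HilbertBasis ι ℂ H) (i : ι)
    (a : SchattenClass p H) : coef b i a = ⟪b i, toOp a (b i)⟫_ℂ := rfl

theorem coef_projS {ι : Type*} [Nontrivial ι] (b : HilbertBasis ι ℂ H) (i : ι) :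
    coef b i (projS p b i) = 1 := by
  classical
  rw [coef_apply, toOp_projS, proj_basis, if_pos rfl, one_smul, inner_self_eq_norm_sq_to_K,
    b.orthonormal.1]
  simp

theorem coef_projS_ne {ι : Type*} [Nontrivial ι] (b : HilbertBasis ι ℂ H) {i j : ι} (hij : i ≠ j) :
    coef b i (projS p b j) = 0 := by
  classical
  rw [coef_apply, toOp_projS, proj_basis, if_neg hij, zero_smul, inner_zero_right]

/-- the contraction `a ↦ 2^(1/p-1) (a₁₁ + a₂₂) e₁₁` -/
noncomputable def badT {ι : Type*} [Nontrivial ι] (b : HilbertBasis ι ℂ H) (i j : ι) :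
    SchattenClass p H →L[ℂ] SchattenClass p H :=
  (((2 : ℝ) ^ (1 / p - 1) : ℝ) : ℂ) • (coef b i + coef b j).smulRight (projS p b i)

theorem badT_apply {ι : Type*} [Nontrivial ι] (b : HilbertBasis ι ℂ H) (i j : ι)
    (a : SchattenClass p H) : badT b i j a =
      ((((2 : ℝ) ^ (1 / p - 1) : ℝ) : ℂ) * (coef b i a + coef b j a)) • projS p b i := by
  rw [badT, smul_apply, smulRight_apply, add_apply, smul_smul]

theorem badT_norm {ι : Type*} [Nontrivial ι] (b : HilbertBasis ι ℂ H) {i j : ι} (hij : i ≠ j) :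
    ‖(badT b i j : SchattenClass p H →L[ℂ] SchattenClass p H)‖ ≤ 1 := by
  have hp0 : 0 < p := p_pos
  refine opNorm_le_bound _ zero_le_one fun a => ?_
  rw [badT_apply, norm_smul, norm_projS, mul_one, one_mul, norm_mul, Complex.norm_real,
    Real.norm_of_nonneg (by positivity)]
  have h1 := coef_sum_le b hij a
  have h2 := ENNReal.rpow_add_le_mul_rpow_add_rpow ‖coef b i a‖ₑ ‖coef b j a‖ₑ hp.out
  have h3 : ‖coef b i a + coef b j a‖ₑ ^ p ≤ 2 ^ (p - 1) * ENNReal.ofReal (‖a‖ ^ p) := by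
    rw [norm_rpow]
    calc ‖coef b i a + coef b j a‖ₑ ^ p ≤ (‖coef b i a‖ₑ + ‖coef b j a‖ₑ) ^ p := by
          gcongr
          exact enorm_add_le _ _
      _ ≤ _ := h2
      _ ≤ _ := by
          gcongr
          exact h1
  have h4 : ‖coef b i a + coef b j a‖ ^ p ≤ 2 ^ (p - 1) * ‖a‖ ^ p := by
    rw [← ofReal_norm, ENNReal.ofReal_rpow_of_nonneg (norm_nonneg _) hp0.le,
      show (2 : ℝ≥0∞) = ENNReal.ofReal 2 by norm_num, ENNReal.ofReal_rpow_of_pos (by norm_num),
      ← ENNReal.ofReal_mul (by positivity), ENNReal.ofReal_le_ofReal_iff (by positivity)] at h3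
    exact h3
  have h5 : ‖coef b i a + coef b j a‖ ≤ 2 ^ (1 - 1 / p) * ‖a‖ := by
    rw [← Real.rpow_le_rpow_iff (norm_nonneg _) (by positivity) hp0,
      Real.mul_rpow (by positivity) (norm_nonneg _), ← Real.rpow_mul (by norm_num)]
    have : (1 - 1 / p) * p = p - 1 := by
      field_simp
    rw [this]
    exact h4
  calc (2 : ℝ) ^ (1 / p - 1) * ‖coef b i a + coef b j a‖
      ≤ (2 : ℝ) ^ (1 / p - 1) * (2 ^ (1 - 1 / p) * ‖a‖) := by gcongr
    _ = ‖a‖ := by
      rw [← mul_assoc, ← Real.rpow_add (by norm_num)]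
      have : 1 / p - 1 + (1 - 1 / p) = 0 := by ring
      rw [this, Real.rpow_zero, one_mul]

/-! ### Isometries -/

theorem op_le {a : H →L[ℂ] H} (ha : IsCompactOperator a) {q : ℝ} (hq : 0 < q)
    (h : trPow q a ≤ 1) (x : H) : ‖a x‖ ≤ ‖x‖ := by
  obtain ⟨ι, b, hb⟩ := exists_singBasis a (compact_star_mul ha)
  have h1 : ∀ i, ‖a (b i)‖ₑ ≤ 1 := by
    intro i
    have h2 : ‖a (b i)‖ₑ ^ q ≤ 1 := by
      refine le_trans ?_ h
      rw [trPow_eq hb (compact_star_mul ha) hq]
      exact ENNReal.le_tsum i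
    by_contra hcon
    push Not at hcon
    have := ENNReal.one_lt_rpow hcon hq
    exact absurd h2 (not_le.2 this)
  have h3 : ‖a x‖ₑ ^ 2 ≤ ‖x‖ₑ ^ 2 := by
    rw [← sing_parseval hb x, ← parseval b x]
    refine ENNReal.tsum_le_tsum fun i => ?_
    calc ‖⟪b i, x⟫_ℂ‖ₑ ^ 2 * ‖a (b i)‖ₑ ^ 2 ≤ ‖⟪b i, x⟫_ℂ‖ₑ ^ 2 * 1 ^ 2 := by
          gcongr
          exact h1 i
      _ = _ := by rw [one_pow, mul_one]
  rw [← ofReal_norm, ← ofReal_norm, ← ENNReal.ofReal_pow (norm_nonneg _),
    ← ENNReal.ofReal_pow (norm_nonneg _), ENNReal.ofReal_le_ofReal_iff (by positivity)] at h3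
  exact (pow_le_pow_iff_left₀ (norm_nonneg _) (norm_nonneg _) two_ne_zero).1 h3

theorem disjoint_coef {A B : H →L[ℂ] H} (h1 : adjoint A ∘L B = 0) (h2 : B ∘L adjoint A = 0)
    (hA : ∀ x, ‖A x‖ ≤ ‖x‖) (hB : ∀ x, ‖B x‖ ≤ ‖x‖) {e : H} (he : ‖e‖ = 1) :
    ‖⟪e, A e⟫_ℂ‖ + ‖⟪e, B e⟫_ℂ‖ ≤ 1 := by
  -- split `e` along the kernel of `A`
  obtain ⟨y, hy, z, hz, hyz⟩ := (LinearMap.ker (A : H →ₗ[ℂ] H)).exists_add_mem_mem_orthogonal e
  have hAy : A y = 0 := hy
  have hBz : B z = 0 := by
    have h3 : z ∈ (LinearMap.range ((adjoint A : H →L[ℂ] H) : H →ₗ[ℂ] H)).topologicalClosure := by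
      have h4 := ContinuousLinearMap.orthogonal_ker A
      rw [← h4]
      exact hz
    have h5 : (LinearMap.range ((adjoint A : H →L[ℂ] H) : H →ₗ[ℂ] H)).topologicalClosure
        ≤ LinearMap.ker (B : H →ₗ[ℂ] H) := by
      apply Submodule.topologicalClosure_minimal
      · rintro _ ⟨x, rfl⟩
        exact congrFun (congrArg DFunLike.coe h2) x
      · exact B.isClosed_ker
    exact h5 h3
  have hAe : A e = A z := by rw [hyz, map_add, hAy, zero_add]
  have hBe : B e = B y := by rw [hyz, map_add, hBz, add_zero]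
  have hyz0 : ⟪y, z⟫_ℂ = 0 := hz y hy
  have hsum : ‖A e‖ ^ 2 + ‖B e‖ ^ 2 ≤ 1 := by
    have h6 : ‖e‖ ^ 2 = ‖y‖ ^ 2 + ‖z‖ ^ 2 := by
      rw [hyz, sq, sq, sq]
      exact norm_add_sq_eq_norm_sq_add_norm_sq_of_inner_eq_zero y z hyz0
    rw [he] at h6
    have h7 : ‖A e‖ ^ 2 ≤ ‖z‖ ^ 2 := by
      rw [hAe]
      exact pow_le_pow_left₀ (norm_nonneg _) (hA z) 2
    have h8 : ‖B e‖ ^ 2 ≤ ‖y‖ ^ 2 := by
      rw [hBe]
      exact pow_le_pow_left₀ (norm_nonneg _) (hB y) 2
    linarith
  obtain ⟨ω₁, hω₁, hc₁⟩ := Complex.exists_norm_eq_mul_self ⟪e, A e⟫_ℂ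
  obtain ⟨ω₂, hω₂, hc₂⟩ := Complex.exists_norm_eq_mul_self ⟪e, B e⟫_ℂ
  have h9 : ⟪e, ω₁ • A e + ω₂ • B e⟫_ℂ = ((‖⟪e, A e⟫_ℂ‖ + ‖⟪e, B e⟫_ℂ‖ : ℝ) : ℂ) := by
    rw [inner_add_right, inner_smul_right, inner_smul_right, ← hc₁, ← hc₂]
    push_cast
    rfl
  have h10 : ‖⟪e, ω₁ • A e + ω₂ • B e⟫_ℂ‖ ≤ ‖ω₁ • A e + ω₂ • B e‖ := by
    have := norm_inner_le_norm (𝕜 := ℂ) e (ω₁ • A e + ω₂ • B e)
    rwa [he, one_mul] at this
  rw [h9, Complex.norm_real, Real.norm_of_nonneg (by positivity)] at h10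
  have h11 : ⟪ω₁ • A e, ω₂ • B e⟫_ℂ = 0 := by
    rw [inner_smul_left, inner_smul_right, ← adjoint_inner_right]
    have : (adjoint A) (B e) = 0 := congrFun (congrArg DFunLike.coe h1) e
    rw [this, inner_zero_right, mul_zero, mul_zero]
  have h12 := norm_add_sq_eq_norm_sq_add_norm_sq_of_inner_eq_zero _ _ h11
  rw [norm_smul, norm_smul, hω₁, hω₂, one_mul, one_mul] at h12
  have h13 : ‖ω₁ • A e + ω₂ • B e‖ ≤ 1 := by
    have h14 : ‖ω₁ • A e + ω₂ • B e‖ ^ 2 ≤ 1 := by
      rw [sq, h12, ← sq, ← sq]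
      exact hsum
    exact (sq_le_one_iff₀ (norm_nonneg _)).1 h14
  exact h10.trans h13

theorem isometry_coef {ι : Type*} [Nontrivial ι] (b : HilbertBasis ι ℂ H) {i j : ι} (hij : i ≠ j)
    (hp2 : p ≠ 2) {V : SchattenClass p H →L[ℂ] SchattenClass p H} (hV : ∀ a, ‖V a‖ = ‖a‖) :
    ‖coef b i (V (projS p b i))‖ + ‖coef b i (V (projS p b j))‖ ≤ 1 := by
  have hp0 : 0 < p := p_pos
  have hN : ∀ α β : ℂ, trPow p (α • toOp (V (projS p b i)) + β • toOp (V (projS p b j)))
      = ‖α‖ₑ ^ p + ‖β‖ₑ ^ p := by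
    intro α β
    have h1 : α • toOp (V (projS p b i)) + β • toOp (V (projS p b j))
        = toOp (V (α • projS p b i + β • projS p b j)) := by
      rw [map_add, map_add, map_smul, map_smul, map_smul, map_smul]
    rw [h1, ← norm_rpow, hV, norm_rpow, map_add, map_smul, map_smul, toOp_projS, toOp_projS,
      trPow_comb b hij hp0]
  obtain ⟨c1, c2⟩ := disjoint_of_norm (toOp_compact _) (toOp_compact _) hp0 hp2 hN
  have z0 : (0 : ℝ≥0∞) ^ p = 0 := ENNReal.zero_rpow_of_pos hp0
  have n1 : trPow p (toOp (V (projS p b i))) ≤ 1 := by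
    have := hN 1 0
    rw [one_smul, zero_smul, add_zero, enorm_one, ENNReal.one_rpow, enorm_zero, z0, add_zero] at this
    exact this.le
  have n2 : trPow p (toOp (V (projS p b j))) ≤ 1 := by
    have := hN 0 1
    rw [one_smul, zero_smul, zero_add, enorm_one, ENNReal.one_rpow, enorm_zero, z0, zero_add] at this
    exact this.le
  exact disjoint_coef c1 c2 (op_le (toOp_compact _) hp0 n1) (op_le (toOp_compact _) hp0 n2)
    (b.orthonormal.1 i)

/-- The isometries (not necessarily surjective) among the bounded operators on `X`. -/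
def isometries (X : Type*) [NormedAddCommGroup X] [NormedSpace ℂ X] : Set (X →L[ℂ] X) :=
  {V | ∀ a, ‖V a‖ = ‖a‖}

/-- The net `S` of operators on `X` (indexed by a directed set) converges to `T` in the
pw-topology: `y (S_i^n x)` tends to `y (T^n x)` for all `x` in `X`, all continuous linear
functionals `y` on `X` and all `n ≥ 0`. -/
def PwTendsto {X : Type*} [NormedAddCommGroup X] [NormedSpace ℂ X] {ι : Type*} [Preorder ι]
    (S : ι → X →L[ℂ] X) (T : X →L[ℂ] X) : Prop :=
  ∀ (x : X) (y : X →L[ℂ] ℂ) (n : ℕ), Tendsto (fun i => y ((S i ^ n) x)) atTop (𝓝 (y ((T ^ n) x)))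

/-- The operators that are limits, in the pw-topology, of nets of operators in `U` (nets are
indexed by nonempty directed sets in the universe `w`). -/
def pwClos {X : Type*} [NormedAddCommGroup X] [NormedSpace ℂ X] (U : Set (X →L[ℂ] X)) :
    Set (X →L[ℂ] X) :=
  {T | ∃ (ι : Type w) (_ : Preorder ι) (_ : IsDirectedOrder ι) (_ : Nonempty ι)
    (S : ι → X →L[ℂ] X), (∀ i, S i ∈ U) ∧ PwTendsto S T}

/-- Every contraction on `X` is a pw-limit of a net of isometries on `X`. -/
def ContractionsArePwLimits (X : Type*) [NormedAddCommGroup X] [NormedSpace ℂ X] : Prop :=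
  ∀ T : X →L[ℂ] X, ‖T‖ ≤ 1 → T ∈ pwClos.{w} (isometries X)

/-- For every infinite-dimensional complex Hilbert space and every `1 < p < ∞`, `p ≠ 2`, not every
contraction on the Schatten class is a pw-limit of a net of isometries. -/
theorem result (H : Type u) [NormedAddCommGroup H] [InnerProductSpace ℂ H] [CompleteSpace H]
    (hH : ¬ FiniteDimensional ℂ H) (p : ℝ) [Fact (1 ≤ p)] (hp : 1 < p) (hp2 : p ≠ 2) :
    ¬ ContractionsArePwLimits.{w} (SchattenClass p H) := by
  obtain ⟨s, b, hb⟩ := exists_hilbertBasis ℂ H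
  have hnt : Nontrivial s := by
    by_contra hcon
    rw [not_nontrivial_iff_subsingleton] at hcon
    apply hH
    have hfin : Finite s := Finite.of_subsingleton
    have : Fintype s := Fintype.ofFinite _
    exact (b.toOrthonormalBasis).toBasis.finiteDimensional_of_finite
  obtain ⟨i, j, hij⟩ := exists_pair_ne s
  intro hall
  obtain ⟨ι, _, _, _, S, hS, hlim⟩ := hall (badT b i j) (badT_norm b hij)
  have hp0 : 0 < p := by linarith
  have l1 := hlim (projS p b i) (coef b i) 1
  have l2 := hlim (projS p b j) (coef b i) 1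
  simp only [pow_one] at l1 l2
  have v1 : coef b i (badT b i j (projS p b i)) = (((2 : ℝ) ^ (1 / p - 1) : ℝ) : ℂ) := by
    rw [badT_apply, coef_projS, coef_projS_ne b hij.symm, add_zero, mul_one, map_smul, coef_projS,
      smul_eq_mul, mul_one]
  have v2 : coef b i (badT b i j (projS p b j)) = (((2 : ℝ) ^ (1 / p - 1) : ℝ) : ℂ) := by
    rw [badT_apply, coef_projS, coef_projS_ne b hij, zero_add, mul_one, map_smul, coef_projS,
      smul_eq_mul, mul_one]
  rw [v1] at l1
  rw [v2] at l2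
  have l3 := l1.norm.add l2.norm
  have l4 := le_of_tendsto l3 (Eventually.of_forall fun k => isometry_coef b hij hp2 (hS k))
  rw [Complex.norm_real, Real.norm_of_nonneg (by positivity)] at l4
  have h1 : (1 : ℝ) < 2 ^ (1 / p) := Real.one_lt_rpow (by norm_num) (by positivity)
  have h2 : (2 : ℝ) ^ (1 / p - 1) + 2 ^ (1 / p - 1) = 2 ^ (1 / p) := by
    rw [Real.rpow_sub_one (by norm_num)]
    ring
  linarith

end Pool.Agent.Results.MP_fd02da_an.SchattenIsometries
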